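import Pool.Agent.Q314.GA.Cover

/-!
# Certificates: words which are not the unique maximum of a rank one functional
-/

namespace Pool.Agent.Q314.GA

open Matrix

/-- real two by two matrices -/
abbrev M2 := Matrix (Fin 2) (Fin 2) ℝ

/-- the product along a word -/
def pr (A B : M2) : List Bool → M2
  | [] => 1
  | b :: w => (if b then B else A) * pr A B w

theorem pr_append (A B : M2) (u v : List Bool) : pr A B (u ++ v) = pr A B u * pr A B v := by
  induction u with
  | nil => simp [pr]
  | cons b u ih => simp [pr, ih, mul_assoc]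

/-- the functional `X ↦ r X c` -/
def F (r c : Fin 2 → ℝ) (X : M2) : ℝ :=
  r 0 * (X 0 0 * c 0 + X 0 1 * c 1) + r 1 * (X 1 0 * c 0 + X 1 1 * c 1)

theorem F_add (r c : Fin 2 → ℝ) (X Y : M2) : F r c (X + Y) = F r c X + F r c Y := by
  simp only [F, Matrix.add_apply]
  ring

theorem F_smul (r c : Fin 2 → ℝ) (s : ℝ) (X : M2) : F r c (s • X) = s * F r c X := by
  simp only [F, Matrix.smul_apply, smul_eq_mul]
  ring

/-- coordinates of a product in the basis `1, P, Q, PQ` -/
def st (a b e : ℝ) : List Bool → ℝ × ℝ × ℝ × ℝ
  | [] => (1, 0, 0, 0)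
  | false :: w =>
    let x := st a b e w
    (-x.2.1, x.1 + a * x.2.1, -x.2.2.2, x.2.2.1 + a * x.2.2.2)
  | true :: w =>
    let x := st a b e w
    ((e - a * b) * x.2.1 - x.2.2.1 - a * x.2.2.2, b * x.2.1 + x.2.2.2,
      x.1 + a * x.2.1 + b * x.2.2.1 + e * x.2.2.2, -x.2.1)

theorem mul_self_eq {P : M2} (hP : P.det = 1) : P * P = P.trace • P - 1 := by
  rw [det_fin_two] at hP
  ext i j
  fin_cases i <;> fin_cases j <;>
    simp [Matrix.mul_apply, Fin.sum_univ_two, trace_fin_two, Matrix.sub_apply, Matrix.smul_apply] <;>
    first | ring1 | linear_combination (-1 : ℝ) * hP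

theorem mul_comm_eq (P Q : M2) : Q * P = -(P * Q) + Q.trace • P + P.trace • Q
    + ((P * Q).trace - P.trace * Q.trace) • (1 : M2) := by
  ext i j
  fin_cases i <;> fin_cases j <;>
    simp [Matrix.mul_apply, Fin.sum_univ_two, trace_fin_two, Matrix.add_apply, Matrix.smul_apply] <;>
    ring

/-- left multiplication in coordinates -/
theorem pr_eq {P Q : M2} (hP : P.det = 1) (hQ : Q.det = 1) (w : List Bool) :
    pr P Q w = (st P.trace Q.trace (P * Q).trace w).1 • (1 : M2)
      + (st P.trace Q.trace (P * Q).trace w).2.1 • P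
      + (st P.trace Q.trace (P * Q).trace w).2.2.1 • Q
      + (st P.trace Q.trace (P * Q).trace w).2.2.2 • (P * Q) := by
  have h1 := mul_self_eq hP
  have h2 := mul_self_eq hQ
  have h3 := mul_comm_eq P Q
  have h4 : P * (P * Q) = P.trace • (P * Q) - Q := by
    rw [← mul_assoc, h1, sub_mul, smul_mul_assoc, one_mul]
  have h5 : Q * (P * Q) = P + (P * Q).trace • Q - P.trace • (1 : M2) := by
    rw [← mul_assoc, h3]
    simp only [add_mul, neg_mul, smul_mul_assoc, one_mul]
    rw [mul_assoc, h2]
    simp only [mul_sub, mul_smul_comm, mul_one, smul_sub, sub_smul]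
    module
  induction w with
  | nil => simp [pr, st]
  | cons b w ih =>
    cases b with
    | false =>
      simp only [pr, st, Bool.false_eq_true, if_false]
      rw [ih]
      simp only [mul_add, mul_smul_comm, mul_one, h1, h4, smul_sub, smul_smul]
      module
    | true =>
      simp only [pr, st, if_true]
      rw [ih]
      simp only [mul_add, mul_smul_comm, mul_one, h2, h5]
      rw [h3]
      simp only [smul_sub, smul_add, smul_neg, smul_smul]
      module

theorem F_pr {P Q : M2} (hP : P.det = 1) (hQ : Q.det = 1) (r c : Fin 2 → ℝ) (w : List Bool) :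
    F r c (pr P Q w) = (st P.trace Q.trace (P * Q).trace w).1 * F r c 1
      + (st P.trace Q.trace (P * Q).trace w).2.1 * F r c P
      + (st P.trace Q.trace (P * Q).trace w).2.2.1 * F r c Q
      + (st P.trace Q.trace (P * Q).trace w).2.2.2 * F r c (P * Q) := by
  rw [pr_eq hP hQ w]
  simp only [F_add, F_smul]

/-- first certificate -/
theorem cert1 {P Q : M2} (hP : P.det = 1) (hQ : Q.det = 1) (r c : Fin 2 → ℝ)
    (h1 : F r c (pr P Q [false, true, false, false, true, true])
      < F r c (pr P Q [false, true, true, false, false, true]))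
    (h2 : F r c (pr P Q [false, true, false, true, true, false])
      < F r c (pr P Q [false, true, true, false, false, true]))
    (h3 : F r c (pr P Q [true, false, false, true, false, true])
      < F r c (pr P Q [false, true, true, false, false, true])) :
    ¬ C1 P.trace Q.trace (P * Q).trace := by
  intro hC
  unfold C1 at hC
  have key : (P.trace * Q.trace * (P * Q).trace) * (P.trace * Q.trace * (P * Q).trace - Q.trace ^ 2)
        * F r c (pr P Q [false, true, true, false, false, true])
      = (P.trace * Q.trace * (P * Q).trace)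
          * (P.trace * Q.trace * (P * Q).trace - P.trace ^ 2 - Q.trace ^ 2)
          * F r c (pr P Q [false, true, false, false, true, true])
        + P.trace ^ 2 * (P.trace * Q.trace * (P * Q).trace - Q.trace ^ 2)
          * F r c (pr P Q [false, true, false, true, true, false])
        + P.trace ^ 2 * Q.trace ^ 2 * F r c (pr P Q [true, false, false, true, false, true]) := by
    simp only [F_pr hP hQ, st]
    ring
  generalize F r c (pr P Q [false, true, true, false, false, true]) = f0 at *
  generalize F r c (pr P Q [false, true, false, false, true, true]) = f1 at *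
  generalize F r c (pr P Q [false, true, false, true, true, false]) = f2 at *
  generalize F r c (pr P Q [true, false, false, true, false, true]) = f3 at *
  generalize P.trace = a at *
  generalize Q.trace = b at *
  generalize (P * Q).trace = e at *
  set p := a * b * e with hp
  have a2 : 0 ≤ a ^ 2 := sq_nonneg a
  have b2 : 0 ≤ b ^ 2 := sq_nonneg b
  have hp0 : 0 < p := by linarith
  have k1 : 0 < p * (p - a ^ 2 - b ^ 2) := mul_pos hp0 (by linarith)
  have k2 : 0 ≤ a ^ 2 * (p - b ^ 2) := mul_nonneg a2 (by linarith)
  have k3 : 0 ≤ a ^ 2 * b ^ 2 := mul_nonneg a2 b2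
  have m1 := mul_pos k1 (sub_pos.2 h1)
  have m2 := mul_nonneg k2 (sub_pos.2 h2).le
  have m3 := mul_nonneg k3 (sub_pos.2 h3).le
  have tot : p * (p - b ^ 2) * f0 = p * (p - a ^ 2 - b ^ 2) * f0 + a ^ 2 * (p - b ^ 2) * f0
      + a ^ 2 * b ^ 2 * f0 := by ring
  nlinarith

end Pool.Agent.Q314.GA
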