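import Pool.Agent.Q314.GA.Cert

/-!
# Certificates for a negative determinant and for two small rotations
-/

namespace Pool.Agent.Q314.GA

open Matrix

theorem mul_self_eq' (P : M2) : P * P = P.trace • P - P.det • (1 : M2) := by
  ext i j
  fin_cases i <;> fin_cases j <;>
    simp [Matrix.mul_apply, Fin.sum_univ_two, trace_fin_two, det_fin_two, Matrix.sub_apply,
      Matrix.smul_apply] <;> ring

theorem F_sub (r c : Fin 2 → ℝ) (X Y : M2) : F r c (X - Y) = F r c X - F r c Y := by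
  simp only [F, Matrix.sub_apply]
  ring

/-- certificate for a negative determinant; `b` is the letter with negative determinant -/
theorem cert0 {A B : M2} (hA : A.det < 0) (r c : Fin 2 → ℝ)
    (h1 : F r c (A * (A * (A * (A * B)))) < F r c (A * (A * (B * (A * A)))))
    (h2 : F r c (B * (A * (A * (A * A)))) < F r c (A * (A * (B * (A * A)))))
    (h3 : F r c (A * (A * (A * (B * A)))) < F r c (A * (A * (B * (A * A)))))
    (h4 : F r c (A * (B * (A * (A * A)))) < F r c (A * (A * (B * (A * A))))) : False := by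
  have e := mul_self_eq' A
  have e' : ∀ X : M2, A * (A * X) = A.trace • (A * X) - A.det • X := by
    intro X
    rw [← mul_assoc, e, sub_mul, smul_mul_assoc, smul_mul_assoc, one_mul]
  have w1 : A * (A * (A * (A * B))) = (A.trace ^ 3 - 2 * A.trace * A.det) • (A * B)
      - (A.trace ^ 2 * A.det - A.det ^ 2) • B := by
    rw [e' (A * (A * B)), e' B]
    simp only [mul_sub, mul_smul_comm]
    rw [e' B]
    module
  have w2 : B * (A * (A * (A * A))) = (A.trace ^ 3 - 2 * A.trace * A.det) • (B * A)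
      - (A.trace ^ 2 * A.det - A.det ^ 2) • B := by
    rw [e' (A * A), e]
    simp only [mul_sub, mul_smul_comm, mul_one]
    rw [e]
    simp only [mul_sub, mul_smul_comm, mul_one, smul_sub]
    module
  have w3 : A * (A * (A * (B * A))) = (A.trace ^ 2 - A.det) • (A * (B * A))
      - (A.trace * A.det) • (B * A) := by
    rw [e' (A * (B * A)), e' (B * A)]
    module
  have w4 : A * (B * (A * (A * A))) = (A.trace ^ 2 - A.det) • (A * (B * A))
      - (A.trace * A.det) • (A * B) := by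
    rw [e' A, e]
    simp only [mul_sub, mul_smul_comm, mul_one, smul_sub]
    module
  have w0 : A * (A * (B * (A * A))) = (A.trace ^ 2) • (A * (B * A))
      - (A.trace * A.det) • (A * B + B * A) + (A.det ^ 2) • B := by
    rw [e' (B * (A * A)), e]
    simp only [mul_sub, mul_smul_comm, mul_one, smul_sub]
    module
  have key : 2 * (A.trace ^ 2 - A.det) * F r c (A * (A * (B * (A * A))))
      = -A.det * (F r c (A * (A * (A * (A * B)))) + F r c (B * (A * (A * (A * A)))))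
        + A.trace ^ 2 * (F r c (A * (A * (A * (B * A)))) + F r c (A * (B * (A * (A * A))))) := by
    rw [w0, w1, w2, w3, w4]
    simp only [F_sub, F_add, F_smul]
    ring
  generalize F r c (A * (A * (B * (A * A)))) = f0 at *
  generalize F r c (A * (A * (A * (A * B)))) = f1 at *
  generalize F r c (B * (A * (A * (A * A)))) = f2 at *
  generalize F r c (A * (A * (A * (B * A)))) = f3 at *
  generalize F r c (A * (B * (A * (A * A)))) = f4 at *
  have m1 := mul_pos (neg_pos.2 hA) (sub_pos.2 h1)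
  have m2 := mul_pos (neg_pos.2 hA) (sub_pos.2 h2)
  have m3 := mul_nonneg (sq_nonneg A.trace) (sub_pos.2 h3).le
  have m4 := mul_nonneg (sq_nonneg A.trace) (sub_pos.2 h4).le
  nlinarith

/-! ### definite quadratic forms -/

theorem defq {m0 m1 m2 m3 v0 v1 : ℝ} (h : (m0 + m3) ^ 2 < 4 * (m0 * m3 - m1 * m2))
    (hv : v0 ≠ 0 ∨ v1 ≠ 0) :
    0 < m2 * (m2 * v0 ^ 2 + (m3 - m0) * v0 * v1 - m1 * v1 ^ 2) := by
  have hm2 : m2 ≠ 0 := by
    rintro rfl
    nlinarith [sq_nonneg (m0 - m3)]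
  have key : 4 * (m2 * (m2 * v0 ^ 2 + (m3 - m0) * v0 * v1 - m1 * v1 ^ 2))
      = (2 * m2 * v0 + (m3 - m0) * v1) ^ 2
        + (4 * (m0 * m3 - m1 * m2) - (m0 + m3) ^ 2) * v1 ^ 2 := by ring
  by_cases h1 : v1 = 0
  · have h0 : v0 ≠ 0 := hv.resolve_right (fun h' => h' h1)
    subst h1
    have : 0 < m2 ^ 2 * v0 ^ 2 := by positivity
    nlinarith
  · have : 0 < (4 * (m0 * m3 - m1 * m2) - (m0 + m3) ^ 2) * v1 ^ 2 :=
      mul_pos (by linarith) (by positivity)
    nlinarith [sq_nonneg (2 * m2 * v0 + (m3 - m0) * v1)]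

/-- two elliptic matrices with `tr PQ < tr P tr Q / 2` rotate in the same direction -/
theorem same_sign {p0 p1 p2 p3 q0 q1 q2 q3 : ℝ} (hp : (p0 + p3) ^ 2 < 4 * (p0 * p3 - p1 * p2))
    (hq : (q0 + q3) ^ 2 < 4 * (q0 * q3 - q1 * q2))
    (he : p0 * q0 + p1 * q2 + p2 * q1 + p3 * q3 < (p0 + p3) * (q0 + q3) / 2) : 0 < p2 * q2 := by
  have hp2 : p2 ≠ 0 := by
    rintro rfl
    nlinarith [sq_nonneg (p0 - p3)]
  have key : 2 * (p0 * q0 + p1 * q2 + p2 * q1 + p3 * q3 - (p0 + p3) * (q0 + q3) / 2) * (p2 * q2)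
      = -(2⁻¹ * ((p0 - p3) * q2 - (q0 - q3) * p2) ^ 2)
        - 2⁻¹ * (4 * (p0 * p3 - p1 * p2) - (p0 + p3) ^ 2) * q2 ^ 2
        - 2⁻¹ * (4 * (q0 * q3 - q1 * q2) - (q0 + q3) ^ 2) * p2 ^ 2 := by ring
  have k1 : 0 < (4 * (q0 * q3 - q1 * q2) - (q0 + q3) ^ 2) * p2 ^ 2 :=
    mul_pos (by linarith) (by positivity)
  have k2 : 0 ≤ (4 * (p0 * p3 - p1 * p2) - (p0 + p3) ^ 2) * q2 ^ 2 :=
    mul_nonneg (by linarith) (sq_nonneg _)
  have k3 := sq_nonneg ((p0 - p3) * q2 - (q0 - q3) * p2)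
  by_contra hcon
  push Not at hcon
  nlinarith

/-- the planar part of the second certificate -/
theorem planar {s h0 h1 c0 c1 x0 x1 y0 y1 z0 z1 : ℝ}
    (hc : 0 < h0 * c0 + h1 * c1) (hx : 0 < h0 * x0 + h1 * x1) (hy : 0 < h0 * y0 + h1 * y1)
    (hz : h0 * z0 + h1 * z1 < 0)
    (d1 : 0 < s * (x0 * z1 - x1 * z0)) (d2 : 0 < s * (z0 * y1 - z1 * y0))
    (d3 : 0 < s * (x0 * c1 - x1 * c0)) (d4 : 0 < s * (c0 * y1 - c1 * y0)) : False := by
  have k1 : (h0 * x0 + h1 * x1) * (s * (c0 * z1 - c1 * z0))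
      = (h0 * c0 + h1 * c1) * (s * (x0 * z1 - x1 * z0))
        - (h0 * z0 + h1 * z1) * (s * (x0 * c1 - x1 * c0)) := by ring
  have k2 : (h0 * c0 + h1 * c1) * (s * (z0 * y1 - z1 * y0))
      - (h0 * z0 + h1 * z1) * (s * (c0 * y1 - c1 * y0))
      + (h0 * y0 + h1 * y1) * (s * (c0 * z1 - c1 * z0)) = 0 := by ring
  have p1 : 0 < (h0 * x0 + h1 * x1) * (s * (c0 * z1 - c1 * z0)) := by
    rw [k1]
    have := mul_pos hc d1
    have := mul_pos (neg_pos.2 hz) d3
    linarith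
  have p2 : 0 < s * (c0 * z1 - c1 * z0) := by
    by_contra hcon
    push Not at hcon
    have := mul_nonpos_of_nonneg_of_nonpos hx.le hcon
    linarith
  have := mul_pos hc d2
  have := mul_pos (neg_pos.2 hz) d4
  have := mul_pos hy p2
  linarith

/-- second certificate, in coordinates -/
theorem cert2_core {p0 p1 p2 p3 q0 q1 q2 q3 h0 h1 c0 c1 : ℝ}
    (hP : p0 * p3 - p1 * p2 = 1) (hQ : q0 * q3 - q1 * q2 = 1)
    (ha : 0 < p0 + p3) (hb : 0 < q0 + q3) (ha4 : (p0 + p3) ^ 2 < 4) (hb4 : (q0 + q3) ^ 2 < 4)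
    (he0 : 0 < p0 * q0 + p1 * q2 + p2 * q1 + p3 * q3)
    (he : p0 * q0 + p1 * q2 + p2 * q1 + p3 * q3 < (p0 + p3) * (q0 + q3) / 2)
    (hc : 0 < h0 * c0 + h1 * c1)
    (hx : 0 < h0 * (p3 * (q3 * c0 - q1 * c1) - p1 * (-q2 * c0 + q0 * c1))
      + h1 * (-p2 * (q3 * c0 - q1 * c1) + p0 * (-q2 * c0 + q0 * c1)))
    (hy : 0 < h0 * (p0 * (q0 * c0 + q1 * c1) + p1 * (q2 * c0 + q3 * c1))
      + h1 * (p2 * (q0 * c0 + q1 * c1) + p3 * (q2 * c0 + q3 * c1)))
    (hz : h0 * (p3 * (q0 * c0 + q1 * c1) - p1 * (q2 * c0 + q3 * c1))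
      + h1 * (-p2 * (q0 * c0 + q1 * c1) + p0 * (q2 * c0 + q3 * c1)) < 0) : False := by
  have eP : (p0 + p3) ^ 2 < 4 * (p0 * p3 - p1 * p2) := by rw [hP]; linarith
  have eQ : (q0 + q3) ^ 2 < 4 * (q0 * q3 - q1 * q2) := by rw [hQ]; linarith
  have hpq := same_sign eP eQ he
  have hc0 : c0 ≠ 0 ∨ c1 ≠ 0 := by
    by_contra hcon
    push Not at hcon
    rw [hcon.1, hcon.2] at hc
    simp at hc
  -- `v = Q c`
  obtain ⟨v0, hv0⟩ : ∃ v0, v0 = q0 * c0 + q1 * c1 := ⟨_, rfl⟩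
  obtain ⟨v1, hv1⟩ : ∃ v1, v1 = q2 * c0 + q3 * c1 := ⟨_, rfl⟩
  have hv : v0 ≠ 0 ∨ v1 ≠ 0 := by
    by_contra hcon
    push Not at hcon
    have e0 : c0 = q3 * v0 - q1 * v1 := by
      rw [hv0, hv1]; linear_combination (-c0) * hQ
    have e1 : c1 = -q2 * v0 + q0 * v1 := by
      rw [hv0, hv1]; linear_combination (-c1) * hQ
    rw [hcon.1, hcon.2] at e0 e1
    simp only [mul_zero, sub_zero, add_zero] at e0 e1
    rcases hc0 with h | h
    · exact h e0
    · exact h e1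
  -- the products
  have hae : (p0 * q0 + p1 * q2 + p2 * q1 + p3 * q3) ^ 2 < 4 := by
    have h1 : p0 + p3 < 2 := by nlinarith
    have h2 : q0 + q3 < 2 := by nlinarith
    have h3 : (p0 + p3) * (q0 + q3) < 4 := by nlinarith
    nlinarith
  obtain ⟨k1, hk1⟩ : ∃ k1, k1 = p2 * q0 + p3 * q2 := ⟨_, rfl⟩
  obtain ⟨k2, hk2⟩ : ∃ k2, k2 = q2 * p0 + q3 * p2 := ⟨_, rfl⟩
  have ePQ : ((p0 * q0 + p1 * q2) + (p2 * q1 + p3 * q3)) ^ 2
      < 4 * ((p0 * q0 + p1 * q2) * (p2 * q1 + p3 * q3) - (p0 * q1 + p1 * q3) * k1) := by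
    have : (p0 * q0 + p1 * q2) * (p2 * q1 + p3 * q3) - (p0 * q1 + p1 * q3) * k1 = 1 := by
      rw [hk1]
      linear_combination (q0 * q3 - q1 * q2) * hP + hQ
    rw [this]
    have : (p0 * q0 + p1 * q2) + (p2 * q1 + p3 * q3) = p0 * q0 + p1 * q2 + p2 * q1 + p3 * q3 := by
      ring
    rw [this]
    linarith
  have eQP : ((q0 * p0 + q1 * p2) + (q2 * p1 + q3 * p3)) ^ 2
      < 4 * ((q0 * p0 + q1 * p2) * (q2 * p1 + q3 * p3) - (q0 * p1 + q1 * p3) * k2) := by
    have : (q0 * p0 + q1 * p2) * (q2 * p1 + q3 * p3) - (q0 * p1 + q1 * p3) * k2 = 1 := by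
      rw [hk2]
      linear_combination (q0 * q3 - q1 * q2) * hP + hQ
    rw [this]
    have : (q0 * p0 + q1 * p2) + (q2 * p1 + q3 * p3) = p0 * q0 + p1 * q2 + p2 * q1 + p3 * q3 := by
      ring
    rw [this]
    linarith
  have hk12 : 0 < k2 * k1 := by
    have hne : q0 ≠ 0 ∨ q2 ≠ 0 := by
      by_contra hcon
      push Not at hcon
      rw [hcon.1, hcon.2] at hQ
      simp at hQ
    have := defq eQP hne
    have e : k2 * q0 ^ 2 + ((q2 * p1 + q3 * p3) - (q0 * p0 + q1 * p2)) * q0 * q2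
        - (q0 * p1 + q1 * p3) * q2 ^ 2 = k1 := by
      rw [hk1, hk2]
      linear_combination (p2 * q0 + p3 * q2) * hQ
    rwa [e] at this
  have hsum : 0 < p2 * k1 + p2 * k2 := by
    have : p2 * k1 + p2 * k2 = p2 ^ 2 * (q0 + q3) + (p2 * q2) * (p0 + p3) := by
      rw [hk1, hk2]; ring
    rw [this]
    have := mul_pos hpq ha
    have := mul_nonneg (sq_nonneg p2) hb.le
    linarith
  have hprod : 0 ≤ (p2 * k1) * (p2 * k2) := by
    have : (p2 * k1) * (p2 * k2) = p2 ^ 2 * (k2 * k1) := by ring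
    rw [this]
    exact mul_nonneg (sq_nonneg _) hk12.le
  have hk1s : 0 < p2 * k1 := by
    by_contra hcon
    push Not at hcon
    have h2 : 0 < p2 * k2 := by linarith
    have h3 : p2 * k1 = 0 := by
      by_contra h4
      have : p2 * k1 < 0 := lt_of_le_of_ne hcon h4
      have := mul_neg_of_neg_of_pos this h2
      linarith
    have hp2 : p2 ≠ 0 := by
      rintro rfl
      simp at h2
    have : k1 = 0 := by
      rcases mul_eq_zero.1 h3 with h | h
      · exact absurd h hp2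
      · exact h
    rw [this] at hk12
    simp at hk12
  have hk2s : 0 < p2 * k2 := by
    by_contra hcon
    push Not at hcon
    have h3 : p2 * k2 = 0 := by
      by_contra h4
      have : p2 * k2 < 0 := lt_of_le_of_ne hcon h4
      have := mul_neg_of_pos_of_neg hk1s this
      linarith
    have hp2 : p2 ≠ 0 := by
      rintro rfl
      simp at hk1s
    have : k2 = 0 := by
      rcases mul_eq_zero.1 h3 with h | h
      · exact absurd h hp2
      · exact h
    rw [this] at hk12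
    simp at hk12
  -- sign transfer
  have transfer : ∀ x k q : ℝ, 0 < x * k → 0 < k * q → 0 < x * q := by
    intro x k q h1 h2
    by_contra hcon
    push Not at hcon
    have : 0 < (x * k) * (k * q) := mul_pos h1 h2
    have e : (x * k) * (k * q) = k ^ 2 * (x * q) := by ring
    rw [e] at this
    have := mul_nonpos_of_nonneg_of_nonpos (sq_nonneg k) hcon
    linarith
  have g1 := transfer p2 q2 _ hpq (defq eQ hc0)
  have g2 : 0 < p2 * (p2 * v0 ^ 2 + (p3 - p0) * v0 * v1 - p1 * v1 ^ 2) := defq eP hv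
  have g3 := transfer p2 k2 _ hk2s (defq eQP hc0)
  have g4 := transfer p2 k1 _ hk1s (defq ePQ hc0)
  refine planar (s := p2) (h0 := h0) (h1 := h1) (c0 := c0) (c1 := c1) hc hx hy hz ?_ ?_ ?_ ?_
  · have : p2 * ((p3 * (q3 * c0 - q1 * c1) - p1 * (-q2 * c0 + q0 * c1))
        * (-p2 * (q0 * c0 + q1 * c1) + p0 * (q2 * c0 + q3 * c1))
        - (-p2 * (q3 * c0 - q1 * c1) + p0 * (-q2 * c0 + q0 * c1))
        * (p3 * (q0 * c0 + q1 * c1) - p1 * (q2 * c0 + q3 * c1)))
        = (q0 + q3) * (p2 * (q2 * c0 ^ 2 + (q3 - q0) * c0 * c1 - q1 * c1 ^ 2))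
          * (p0 * p3 - p1 * p2) := by ring
    rw [this, hP, mul_one]
    exact mul_pos hb g1
  · have : p2 * ((p3 * (q0 * c0 + q1 * c1) - p1 * (q2 * c0 + q3 * c1))
        * (p2 * (q0 * c0 + q1 * c1) + p3 * (q2 * c0 + q3 * c1))
        - (-p2 * (q0 * c0 + q1 * c1) + p0 * (q2 * c0 + q3 * c1))
        * (p0 * (q0 * c0 + q1 * c1) + p1 * (q2 * c0 + q3 * c1)))
        = (p0 + p3) * (p2 * (p2 * v0 ^ 2 + (p3 - p0) * v0 * v1 - p1 * v1 ^ 2)) := by
      rw [hv0, hv1]; ring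
    rw [this]
    exact mul_pos ha g2
  · have : p2 * ((p3 * (q3 * c0 - q1 * c1) - p1 * (-q2 * c0 + q0 * c1)) * c1
        - (-p2 * (q3 * c0 - q1 * c1) + p0 * (-q2 * c0 + q0 * c1)) * c0)
        = p2 * (k2 * c0 ^ 2 + ((q2 * p1 + q3 * p3) - (q0 * p0 + q1 * p2)) * c0 * c1
          - (q0 * p1 + q1 * p3) * c1 ^ 2) := by
      rw [hk2]; ring
    rw [this]
    exact g3
  · have : p2 * (c0 * (p2 * (q0 * c0 + q1 * c1) + p3 * (q2 * c0 + q3 * c1))
        - c1 * (p0 * (q0 * c0 + q1 * c1) + p1 * (q2 * c0 + q3 * c1)))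
        = p2 * (k1 * c0 ^ 2 + ((p2 * q1 + p3 * q3) - (p0 * q0 + p1 * q2)) * c0 * c1
          - (p0 * q1 + p1 * q3) * c1 ^ 2) := by
      rw [hk1]; ring
    rw [this]
    exact g4

end Pool.Agent.Q314.GA
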