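import Mathlib

/-!
# The two conditions on traces cannot fail for all pairs of words (arithmetic of real numbers)
-/

namespace Pool.Agent.Q314.GA

/-- first condition on the traces `a = tr P`, `b = tr Q`, `t = tr PQ` -/
def C1 (a b t : ℝ) : Prop := a ^ 2 + b ^ 2 < a * b * t

/-- second condition -/
def C2 (a b t : ℝ) : Prop := a ^ 2 < 4 ∧ b ^ 2 < 4 ∧ 0 < a * b * t ∧ a * b * t < a ^ 2 * b ^ 2 / 2

/-- the case `2 ≤ w² < 4` -/
theorem elliptic {w e : ℝ} (h1 : 2 ≤ w ^ 2) (h2 : w ^ 2 < 4) (h3 : e < 2) (h4 : 2 + e < w ^ 2)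
    (hc2 : ¬ C2 w w e) (hc1 : ¬ C1 w (w * (e - 1)) (w ^ 2 * (e - 1) - e)) : False := by
  set X := w ^ 2 with hX
  by_cases he : 0 < e
  · apply hc2
    refine ⟨h2, h2, ?_, ?_⟩
    · have : w * w * e = X * e := by rw [hX]; ring
      rw [this]
      positivity
    · have e1 : w * w * e = X * e := by rw [hX]; ring
      have e2 : w ^ 2 * w ^ 2 / 2 = X * (X / 2) := by rw [hX]; ring
      rw [e1, e2]
      apply mul_lt_mul_of_pos_left _ (by linarith)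
      linarith
  · push Not at he
    apply hc1
    unfold C1
    have e1 : w ^ 2 + (w * (e - 1)) ^ 2 = X * (1 + (e - 1) ^ 2) := by rw [hX]; ring
    have e2 : w * (w * (e - 1)) * (w ^ 2 * (e - 1) - e) = X * ((e - 1) * (X * (e - 1) - e)) := by
      rw [hX]; ring
    rw [e1, e2]
    apply mul_lt_mul_of_pos_left _ (by linarith)
    -- with `n = 1 - e ≥ 1`: `(X-2) n² + n - 1 > 0`
    nlinarith [mul_nonneg (sub_nonneg.2 h1) (sq_nonneg e), mul_nonneg (sub_nonneg.2 h1) (neg_nonneg.2 he)]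

/-- the case `4 ≤ w²` -/
theorem hyperbolic {w e : ℝ} (h1 : 4 ≤ w ^ 2) (h3 : e < 2)
    (hc1 : ¬ C1 w (w * (e - 1)) (w ^ 2 * (e - 1) - e))
    (hc2 : ¬ C2 e (w * (e - 1)) (w * (e * (e - 1) - 1)))
    (hc3 : ¬ C1 (w ^ 2 - 2) ((w ^ 2 - 2) * ((w ^ 2 * e - 2 * w ^ 2 + 2) - 1))
      ((w ^ 2 - 2) ^ 2 * ((w ^ 2 * e - 2 * w ^ 2 + 2) - 1) - (w ^ 2 * e - 2 * w ^ 2 + 2))) : False := by
  set X := w ^ 2 with hX
  obtain ⟨δ, hδ⟩ : ∃ δ, e = 2 - δ := ⟨2 - e, by ring⟩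
  have hδ0 : 0 < δ := by linarith
  subst hδ
  by_cases hs : δ < 19 / 50
  · by_cases hx : X * (1 - δ) ^ 2 < 4
    · apply hc2
      have e0 : (2 - δ - 1) = 1 - δ := by ring
      rw [e0]
      refine ⟨by nlinarith, ?_, ?_, ?_⟩
      · have : (w * (1 - δ)) ^ 2 = X * (1 - δ) ^ 2 := by rw [hX]; ring
        rw [this]; exact hx
      · have e1 : (2 - δ) * (w * (1 - δ)) * (w * ((2 - δ) * (1 - δ) - 1))
            = X * (((2 - δ) * (1 - δ)) * ((2 - δ) * (1 - δ) - 1)) := by rw [hX]; ring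
        rw [e1]
        have p1 : 0 < (2 - δ) * (1 - δ) - 1 := by nlinarith
        have p2 : 0 < (2 - δ) * (1 - δ) := by linarith
        have : 0 < X := by linarith
        positivity
      · have e1 : (2 - δ) * (w * (1 - δ)) * (w * ((2 - δ) * (1 - δ) - 1))
            = X * (((2 - δ) * (1 - δ)) * ((2 - δ) * (1 - δ) - 1)) := by rw [hX]; ring
        have e2 : (2 - δ) ^ 2 * (w * (1 - δ)) ^ 2 / 2
            = X * (((2 - δ) * (1 - δ)) * (((2 - δ) * (1 - δ)) / 2)) := by rw [hX]; ring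
        rw [e1, e2]
        have p1 : 0 < (2 - δ) * (1 - δ) - 1 := by nlinarith
        have p2 : 0 < (2 - δ) * (1 - δ) := by linarith
        have p3 : (2 - δ) * (1 - δ) < 2 := by nlinarith
        apply mul_lt_mul_of_pos_left _ (by linarith)
        apply mul_lt_mul_of_pos_left _ p2
        linarith
    · push Not at hx
      apply hc1
      unfold C1
      have e1 : w ^ 2 + (w * (2 - δ - 1)) ^ 2 = X * (1 + (1 - δ) ^ 2) := by rw [hX]; ring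
      have e2 : w * (w * (2 - δ - 1)) * (X * (2 - δ - 1) - (2 - δ))
          = X * ((1 - δ) * (X * (1 - δ) - (2 - δ))) := by rw [hX]; ring
      rw [e1, e2]
      apply mul_lt_mul_of_pos_left _ (by linarith)
      nlinarith
  · push Not at hs
    apply hc3
    unfold C1
    set Y := (X - 2) ^ 2 with hY
    have hY4 : 4 ≤ Y := by rw [hY]; nlinarith
    obtain ⟨n, hn⟩ : ∃ n, n = X * δ - 1 := ⟨_, rfl⟩
    have hn1 : 1 / 2 < n := by rw [hn]; nlinarith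
    have e0 : X * (2 - δ) - 2 * X + 2 = 1 - n := by rw [hn]; ring
    rw [e0]
    have e1 : (X - 2) ^ 2 + ((X - 2) * (1 - n - 1)) ^ 2 = Y * (1 + n ^ 2) := by rw [hY]; ring
    have e2 : (X - 2) * ((X - 2) * (1 - n - 1)) * (Y * (1 - n - 1) - (1 - n))
        = Y * (n * (Y * n + (1 - n))) := by rw [hY]; ring
    rw [e1, e2]
    apply mul_lt_mul_of_pos_left _ (by linarith)
    nlinarith [mul_nonneg (sub_nonneg.2 hY4) (sq_nonneg n)]

/-- the conditions cannot all fail -/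
theorem cover {w e : ℝ} (hw : w ≠ 0)
    (hD : w ^ 2 < 4 → 0 ≤ (2 - e) * (w ^ 2 - 2 - e)) (hD0 : (2 - e) * (w ^ 2 - 2 - e) ≠ 0)
    (ha : ¬ C1 w w e)
    (hb : ¬ C1 w (w * (e - 1)) (w ^ 2 * (e - 1) - e))
    (hb2 : ¬ C1 (w ^ 2 - 2) ((w ^ 2 - 2) * ((w ^ 2 * e - 2 * w ^ 2 + 2) - 1))
      ((w ^ 2 - 2) ^ 2 * ((w ^ 2 * e - 2 * w ^ 2 + 2) - 1) - (w ^ 2 * e - 2 * w ^ 2 + 2)))
    (hb3 : ¬ C1 (w ^ 3 - 3 * w)
      ((w ^ 3 - 3 * w) * (((w ^ 2 - 1) ^ 2 * e - 2 * w ^ 4 + 4 * w ^ 2) - 1))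
      ((w ^ 3 - 3 * w) ^ 2 * (((w ^ 2 - 1) ^ 2 * e - 2 * w ^ 4 + 4 * w ^ 2) - 1)
        - ((w ^ 2 - 1) ^ 2 * e - 2 * w ^ 4 + 4 * w ^ 2)))
    (hc : ¬ C1 w (w ^ 2 - 2) (w * (e - 1)))
    (hd : ¬ C2 w w e)
    (hd2 : ¬ C2 (w ^ 2 - 2) (w ^ 2 - 2) (w ^ 2 * e - 2 * w ^ 2 + 2))
    (hd3 : ¬ C2 (w ^ 3 - 3 * w) (w ^ 3 - 3 * w) ((w ^ 2 - 1) ^ 2 * e - 2 * w ^ 4 + 4 * w ^ 2))
    (hf : ¬ C2 e (w * (e - 1)) (w * (e * (e - 1) - 1))) : False := by
  have hX0 : 0 < w ^ 2 := by positivity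
  -- `e ≤ 2`
  have he2 : e ≤ 2 := by
    by_contra hcon
    push Not at hcon
    apply ha
    unfold C1
    nlinarith
  have he : e < 2 := by
    rcases he2.lt_or_eq with h | h
    · exact h
    · exfalso; apply hD0; rw [h]; ring
  by_cases h4 : 4 ≤ w ^ 2
  · exact hyperbolic h4 he hb hf hb2
  push Not at h4
  have hDp : 0 < (2 - e) * (w ^ 2 - 2 - e) := lt_of_le_of_ne (hD h4) (Ne.symm hD0)
  have hXe : 2 + e < w ^ 2 := by
    by_contra hcon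
    push Not at hcon
    nlinarith
  by_cases h2 : 2 ≤ w ^ 2
  · exact elliptic h2 h4 he hXe hd hb
  push Not at h2
  by_cases hhalf : w ^ 2 ≤ 1 / 2
  · -- squares
    refine elliptic (w := w ^ 2 - 2) (e := w ^ 2 * e - 2 * w ^ 2 + 2) ?_ ?_ ?_ ?_ hd2 hb2
    · nlinarith
    · nlinarith
    · nlinarith
    · nlinarith
  push Not at hhalf
  by_cases h1 : w ^ 2 = 1
  · -- the pair `(W, Z²)`
    apply hc
    unfold C1
    have e1 : w * (w ^ 2 - 2) * (w * (e - 1)) = w ^ 2 * (w ^ 2 - 2) * (e - 1) := by ring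
    rw [e1, h1]
    rw [h1] at hXe
    nlinarith
  · -- cubes
    have hsq : 0 < (w ^ 2 - 1) ^ 2 := by
      have : w ^ 2 - 1 ≠ 0 := sub_ne_zero.2 h1
      positivity
    have e1 : (w ^ 3 - 3 * w) ^ 2 = 4 - (w ^ 2 - 1) ^ 2 * (4 - w ^ 2) := by ring
    have e2 : (w ^ 2 - 1) ^ 2 * e - 2 * w ^ 4 + 4 * w ^ 2 = 2 - (w ^ 2 - 1) ^ 2 * (2 - e) := by ring
    refine elliptic (w := w ^ 3 - 3 * w)
      (e := (w ^ 2 - 1) ^ 2 * e - 2 * w ^ 4 + 4 * w ^ 2) ?_ ?_ ?_ ?_ hd3 hb3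
    · rw [e1]
      set X := w ^ 2 with hX
      nlinarith [mul_nonneg (sub_nonneg.2 h2.le) (sq_nonneg (X - 1)),
        mul_nonneg (sub_nonneg.2 h2.le) (sub_nonneg.2 hhalf.le)]
    · rw [e1]
      nlinarith [mul_pos hsq (sub_pos.2 h4)]
    · rw [e2]
      nlinarith [mul_pos hsq (sub_pos.2 he)]
    · rw [e1, e2]
      have : 0 < (w ^ 2 - 1) ^ 2 * (w ^ 2 - 2 - e) := mul_pos hsq (by linarith)
      nlinarith

end Pool.Agent.Q314.GA
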