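import Pool.Agent.Q314.GA.Cert2

/-!
# Exposed words, substitutions, and the final contradiction for a nondegenerate pair
-/

namespace Pool.Agent.Q314.GA

open Matrix

theorem cert2_pos {P Q : M2} (hP : P.det = 1) (hQ : Q.det = 1) (r c : Fin 2 → ℝ)
    (ha : 0 < P.trace) (hb : 0 < Q.trace)
    (h1 : F r c (pr P Q [false, false, true, true]) < F r c (pr P Q [false, true, false, true]))
    (h2 : F r c (pr P Q [false, true, true, false]) < F r c (pr P Q [false, true, false, true]))
    (h3 : F r c (pr P Q [true, false, false, true]) < F r c (pr P Q [false, true, false, true]))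
    (h4 : F r c (pr P Q [true, false, true, false]) < F r c (pr P Q [false, true, false, true])) :
    ¬ C2 P.trace Q.trace (P * Q).trace := by
  rintro ⟨hC1, hC2, hC3, hC4⟩
  have hab : 0 < P.trace * Q.trace := mul_pos ha hb
  have he0 : 0 < (P * Q).trace := by
    by_contra hcon
    push Not at hcon
    have := mul_nonpos_of_nonneg_of_nonpos hab.le hcon
    linarith
  have he : (P * Q).trace < P.trace * Q.trace / 2 := by
    have e : P.trace ^ 2 * Q.trace ^ 2 / 2 = P.trace * Q.trace * (P.trace * Q.trace / 2) := by ring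
    rw [e] at hC4
    exact lt_of_mul_lt_mul_left hC4 hab.le
  have etr : (P * Q).trace = P 0 0 * Q 0 0 + P 0 1 * Q 1 0 + P 1 0 * Q 0 1 + P 1 1 * Q 1 1 := by
    simp [trace_fin_two, Matrix.mul_apply, Fin.sum_univ_two]
    ring
  rw [etr] at he0 he
  rw [trace_fin_two] at ha hC1 he
  rw [trace_fin_two] at hb hC2 he
  rw [det_fin_two] at hP hQ
  simp only [pr, Bool.false_eq_true, if_false, if_true, mul_one, F, Matrix.mul_apply,
    Fin.sum_univ_two] at h1 h2 h3 h4
  refine cert2_core (p0 := P 0 0) (p1 := P 0 1) (p2 := P 1 0) (p3 := P 1 1) (q0 := Q 0 0)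
    (q1 := Q 0 1) (q2 := Q 1 0) (q3 := Q 1 1)
    (h0 := r 0 * (P 0 1 * Q 1 0 - Q 0 1 * P 1 0)
      + r 1 * (P 1 0 * Q 0 0 + P 1 1 * Q 1 0 - Q 1 0 * P 0 0 - Q 1 1 * P 1 0))
    (h1 := r 0 * (P 0 0 * Q 0 1 + P 0 1 * Q 1 1 - Q 0 0 * P 0 1 - Q 0 1 * P 1 1)
      + r 1 * (P 1 0 * Q 0 1 - Q 1 0 * P 0 1)) (c0 := c 0) (c1 := c 1)
    hP hQ ha hb hC1 hC2 he0 he ?_ ?_ ?_ ?_
  · have : 0 < (P 0 0 * Q 0 0 + P 0 1 * Q 1 0 + P 1 0 * Q 0 1 + P 1 1 * Q 1 1) *
        ((r 0 * (P 0 1 * Q 1 0 - Q 0 1 * P 1 0)
      + r 1 * (P 1 0 * Q 0 0 + P 1 1 * Q 1 0 - Q 1 0 * P 0 0 - Q 1 1 * P 1 0)) * c 0 +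
        (r 0 * (P 0 0 * Q 0 1 + P 0 1 * Q 1 1 - Q 0 0 * P 0 1 - Q 0 1 * P 1 1)
      + r 1 * (P 1 0 * Q 0 1 - Q 1 0 * P 0 1)) * c 1) := by
      have e := sub_pos.2 h4
      convert e using 1
      ring
    exact (mul_pos_iff_of_pos_left he0).1 this
  · have e := sub_pos.2 h2
    convert e using 1
    ring
  · have e := sub_pos.2 h3
    convert e using 1
    ring
  · have e := sub_neg.2 h1
    convert e using 1
    ring

/-- second certificate -/
theorem cert2 {P Q : M2} (hP : P.det = 1) (hQ : Q.det = 1) (r c : Fin 2 → ℝ)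
    (h1 : F r c (pr P Q [false, false, true, true]) < F r c (pr P Q [false, true, false, true]))
    (h2 : F r c (pr P Q [false, true, true, false]) < F r c (pr P Q [false, true, false, true]))
    (h3 : F r c (pr P Q [true, false, false, true]) < F r c (pr P Q [false, true, false, true]))
    (h4 : F r c (pr P Q [true, false, true, false]) < F r c (pr P Q [false, true, false, true])) :
    ¬ C2 P.trace Q.trace (P * Q).trace := by
  intro hC
  have hP' : (-P).det = 1 := by rw [det_neg, hP]; simp
  have hQ' : (-Q).det = 1 := by rw [det_neg, hQ]; simp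
  have hne : P.trace ≠ 0 ∧ Q.trace ≠ 0 := by
    constructor
    · intro h
      have := hC.2.2.1
      rw [h] at this
      simp at this
    · intro h
      have := hC.2.2.1
      rw [h] at this
      simp at this
  simp only [pr, Bool.false_eq_true, if_false, if_true, mul_one] at h1 h2 h3 h4
  rcases lt_or_gt_of_ne hne.1 with ha | ha <;> rcases lt_or_gt_of_ne hne.2 with hb | hb
  · refine cert2_pos hP' hQ' r c (by rw [trace_neg]; linarith) (by rw [trace_neg]; linarith)
      (by simpa [pr] using h1) (by simpa [pr] using h2) (by simpa [pr] using h3)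
      (by simpa [pr] using h4) ?_
    have e : (-P * -Q).trace = (P * Q).trace := by simp
    rw [trace_neg, trace_neg, e]
    obtain ⟨k1, k2, k3, k4⟩ := hC
    exact ⟨by simpa using k1, by simpa using k2, by simpa using k3, by simpa using k4⟩
  · refine cert2_pos hP' hQ r c (by rw [trace_neg]; linarith) hb
      (by simpa [pr] using h1) (by simpa [pr] using h2) (by simpa [pr] using h3)
      (by simpa [pr] using h4) ?_
    have e : (-P * Q).trace = -(P * Q).trace := by simp
    rw [trace_neg, e]
    obtain ⟨k1, k2, k3, k4⟩ := hC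
    refine ⟨by simpa using k1, k2, ?_, ?_⟩
    · have : -P.trace * Q.trace * -(P * Q).trace = P.trace * Q.trace * (P * Q).trace := by ring
      rw [this]; exact k3
    · have : -P.trace * Q.trace * -(P * Q).trace = P.trace * Q.trace * (P * Q).trace := by ring
      rw [this, neg_sq]; exact k4
  · refine cert2_pos hP hQ' r c ha (by rw [trace_neg]; linarith)
      (by simpa [pr] using h1) (by simpa [pr] using h2) (by simpa [pr] using h3)
      (by simpa [pr] using h4) ?_
    have e : (P * -Q).trace = -(P * Q).trace := by simp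
    rw [trace_neg, e]
    obtain ⟨k1, k2, k3, k4⟩ := hC
    refine ⟨k1, by simpa using k2, ?_, ?_⟩
    · have : P.trace * -Q.trace * -(P * Q).trace = P.trace * Q.trace * (P * Q).trace := by ring
      rw [this]; exact k3
    · have : P.trace * -Q.trace * -(P * Q).trace = P.trace * Q.trace * (P * Q).trace := by ring
      rw [this, neg_sq]; exact k4
  · exact cert2_pos hP hQ r c ha hb (by simpa [pr] using h1) (by simpa [pr] using h2)
      (by simpa [pr] using h3) (by simpa [pr] using h4) hC

/-! ### exposed words -/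

/-- `y` is the unique maximum, among the rearrangements of `y`, of some rank one functional -/
def Ex (A B : M2) (y : List Bool) : Prop :=
  ∃ r c : Fin 2 → ℝ, ∀ z : List Bool, z.Perm y → z ≠ y → F r c (pr A B z) < F r c (pr A B y)

theorem F_mul (r c : Fin 2 → ℝ) (X Y Z : M2) :
    F r c (X * (Y * Z)) = F (fun j => r 0 * X 0 j + r 1 * X 1 j)
      (fun i => Z i 0 * c 0 + Z i 1 * c 1) Y := by
  simp only [F, Matrix.mul_apply, Fin.sum_univ_two]
  ring

theorem Ex.factor {A B : M2} {u y v : List Bool} (h : Ex A B (u ++ (y ++ v))) : Ex A B y := by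
  obtain ⟨r, c, h⟩ := h
  refine ⟨fun j => r 0 * (pr A B u) 0 j + r 1 * (pr A B u) 1 j,
    fun i => (pr A B v) i 0 * c 0 + (pr A B v) i 1 * c 1, fun z hz hne => ?_⟩
  have := h (u ++ (z ++ v)) ((hz.append_right v).append_left u) (fun he => hne ?_)
  · rw [pr_append, pr_append, pr_append, pr_append, F_mul, F_mul] at this
    exact this
  · have h1 := List.append_cancel_left he
    exact List.append_cancel_right h1

theorem pr_smul (A B : M2) (s t : ℝ) (z : List Bool) :
    pr (s • A) (t • B) z = (s ^ (z.count false) * t ^ (z.count true)) • pr A B z := by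
  induction z with
  | nil => simp [pr]
  | cons b z ih =>
    cases b
    · simp only [pr, Bool.false_eq_true, if_false, ih, smul_mul_assoc, mul_smul_comm, smul_smul]
      congr 1
      simp [pow_succ]
      ring
    · simp only [pr, if_true, ih, smul_mul_assoc, mul_smul_comm, smul_smul]
      congr 1
      simp [pow_succ]
      ring

theorem Ex.smul {A B : M2} {y : List Bool} (h : Ex A B y) {s t : ℝ} (hs : s ≠ 0) (ht : t ≠ 0) :
    Ex (s • A) (t • B) y := by
  obtain ⟨r, c, h⟩ := h
  set κ := s ^ (y.count false) * t ^ (y.count true) with hκ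
  have hκ0 : κ ≠ 0 := mul_ne_zero (pow_ne_zero _ hs) (pow_ne_zero _ ht)
  refine ⟨κ • r, c, fun z hz hne => ?_⟩
  rw [pr_smul, pr_smul, hz.count_eq, hz.count_eq, ← hκ, F_smul, F_smul]
  have e : ∀ X : M2, F (κ • r) c X = κ * F r c X := by
    intro X
    simp only [F, Pi.smul_apply, smul_eq_mul]
    ring
  rw [e, e]
  have h2 : 0 < κ * κ := mul_self_pos.2 hκ0
  have h3 := mul_pos h2 (sub_pos.2 (h z hz hne))
  clear_value κ
  nlinarith

/-- substitution of words for the letters -/
def sub (p q : List Bool) (w : List Bool) : List Bool := w.flatMap (fun b => if b then q else p)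

theorem pr_sub (A B : M2) (p q w : List Bool) :
    pr A B (sub p q w) = pr (pr A B p) (pr A B q) w := by
  induction w with
  | nil => rfl
  | cons b w ih =>
    have : sub p q (b :: w) = (if b then q else p) ++ sub p q w := rfl
    rw [this, pr_append, ih]
    cases b <;> simp [pr]

theorem Ex.sub {A B : M2} {p q y : List Bool} (h : Ex A B (sub p q y)) :
    ∃ r c : Fin 2 → ℝ, ∀ v : List Bool, v.Perm y → GA.sub p q v ≠ GA.sub p q y →
      F r c (pr (pr A B p) (pr A B q) v) < F r c (pr (pr A B p) (pr A B q) y) := by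
  obtain ⟨r, c, h⟩ := h
  refine ⟨r, c, fun v hv hne => ?_⟩
  have := h (GA.sub p q v) (hv.flatMap_right _) hne
  rwa [pr_sub, pr_sub] at this

theorem det_pr {A B : M2} (hA : A.det = 1) (hB : B.det = 1) (w : List Bool) :
    (pr A B w).det = 1 := by
  induction w with
  | nil => simp [pr]
  | cons b w ih =>
    cases b <;> simp [pr, det_mul, hA, hB, ih]

/-- target of the first certificate -/
def y1 : List Bool := [false, true, true, false, false, true]

/-- target of the second certificate -/
def y2 : List Bool := [false, true, false, true]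

theorem no1 {A B : M2} (hA : A.det = 1) (hB : B.det = 1) {p q : List Bool}
    (h : Ex A B (sub p q y1))
    (h1 : sub p q [false, true, false, false, true, true] ≠ sub p q y1)
    (h2 : sub p q [false, true, false, true, true, false] ≠ sub p q y1)
    (h3 : sub p q [true, false, false, true, false, true] ≠ sub p q y1) :
    ¬ C1 (pr A B p).trace (pr A B q).trace (pr A B (p ++ q)).trace := by
  obtain ⟨r, c, h⟩ := h.sub
  rw [pr_append]
  exact cert1 (det_pr hA hB p) (det_pr hA hB q) r c (h _ (by decide) h1) (h _ (by decide) h2)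
    (h _ (by decide) h3)

theorem no2 {A B : M2} (hA : A.det = 1) (hB : B.det = 1) {p q : List Bool}
    (h : Ex A B (sub p q y2))
    (h1 : sub p q [false, false, true, true] ≠ sub p q y2)
    (h2 : sub p q [false, true, true, false] ≠ sub p q y2)
    (h3 : sub p q [true, false, false, true] ≠ sub p q y2)
    (h4 : sub p q [true, false, true, false] ≠ sub p q y2) :
    ¬ C2 (pr A B p).trace (pr A B q).trace (pr A B (p ++ q)).trace := by
  obtain ⟨r, c, h⟩ := h.sub
  rw [pr_append]
  exact cert2 (det_pr hA hB p) (det_pr hA hB q) r c (h _ (by decide) h1) (h _ (by decide) h2)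
    (h _ (by decide) h3) (h _ (by decide) h4)

/-- traces in coordinates -/
theorem trace_pr {P Q : M2} (hP : P.det = 1) (hQ : Q.det = 1) (w : List Bool) :
    (pr P Q w).trace = (st P.trace Q.trace (P * Q).trace w).1 * 2
      + (st P.trace Q.trace (P * Q).trace w).2.1 * P.trace
      + (st P.trace Q.trace (P * Q).trace w).2.2.1 * Q.trace
      + (st P.trace Q.trace (P * Q).trace w).2.2.2 * (P * Q).trace := by
  rw [pr_eq hP hQ w]
  simp [trace_add, trace_smul]

/-- the commutator of an elliptic matrix with another one has determinant at most zero -/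
theorem det_comm_nonpos {P Q : M2} (hP : P.det = 1) (h : P.trace ^ 2 < 4) :
    (P * Q - Q * P).det ≤ 0 := by
  rw [det_fin_two] at hP ⊢
  rw [trace_fin_two] at h
  simp only [Matrix.sub_apply, Matrix.mul_apply, Fin.sum_univ_two]
  generalize P 0 0 = p0 at *
  generalize P 0 1 = p1 at *
  generalize P 1 0 = p2 at *
  generalize P 1 1 = p3 at *
  generalize Q 0 0 = q0 at *
  generalize Q 0 1 = q1 at *
  generalize Q 1 0 = q2 at *
  generalize Q 1 1 = q3 at *
  have hp2 : p2 ≠ 0 := by
    rintro rfl
    nlinarith [sq_nonneg (p0 - p3)]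
  have key : -((p0 * q0 + p1 * q2 - (q0 * p0 + q1 * p2)) * (p2 * q1 + p3 * q3 - (q2 * p1 + q3 * p3))
      - (p0 * q1 + p1 * q3 - (q0 * p1 + q1 * p3)) * (p2 * q0 + p3 * q2 - (q2 * p0 + q3 * p2)))
        * (4 * p2 ^ 2)
      = (2 * p2 * (p2 * q1 - p1 * q2) + (p0 - p3) * (p2 * (q0 - q3) - q2 * (p0 - p3))) ^ 2
        + (4 * (p0 * p3 - p1 * p2) - (p0 + p3) ^ 2) * (p2 * (q0 - q3) - q2 * (p0 - p3)) ^ 2 := by
    ring
  rw [hP] at key
  have h1 : 0 ≤ (4 * 1 - (p0 + p3) ^ 2) * (p2 * (q0 - q3) - q2 * (p0 - p3)) ^ 2 :=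
    mul_nonneg (by linarith) (sq_nonneg _)
  have h2 := sq_nonneg (2 * p2 * (p2 * q1 - p1 * q2) + (p0 - p3) * (p2 * (q0 - q3) - q2 * (p0 - p3)))
  have h3 : 0 < 4 * p2 ^ 2 := by positivity
  by_contra hcon
  push Not at hcon
  have := mul_neg_of_neg_of_pos (neg_neg_of_pos hcon) h3
  linarith

theorem det_comm_eq {P Q : M2} (hP : P.det = 1) (hQ : Q.det = 1) (ht : Q.trace = P.trace) :
    (P * Q - Q * P).det = -((2 - (P * Q).trace) * (P.trace ^ 2 - 2 - (P * Q).trace)) := by
  have etr : (P * Q).trace = P 0 0 * Q 0 0 + P 0 1 * Q 1 0 + P 1 0 * Q 0 1 + P 1 1 * Q 1 1 := by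
    simp [trace_fin_two, Matrix.mul_apply, Fin.sum_univ_two]
    ring
  have gen : (P * Q - Q * P).det = 4 * P.det * Q.det - P.trace ^ 2 * Q.det - Q.trace ^ 2 * P.det
      - (P * Q).trace ^ 2 + P.trace * Q.trace * (P * Q).trace := by
    rw [etr]
    simp only [det_fin_two, trace_fin_two, Matrix.sub_apply, Matrix.mul_apply, Fin.sum_univ_two]
    ring
  rw [gen, hP, hQ, ht]
  ring

end Pool.Agent.Q314.GA
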