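import Pool.Agent.Q314.GA.Expo

/-!
# No nondegenerate pair of matrices exposes all the targets
-/

namespace Pool.Agent.Q314.GA

open Matrix

/-- the substitution `W ↦ 01`, `Z ↦ 10` -/
def s01 (u : List Bool) : List Bool := sub [false, true] [true, false] u

theorem s01_append (u v : List Bool) : s01 u ++ s01 v = s01 (u ++ v) := by
  simp [s01, sub]

/-- target words of the first kind -/
def T1 (u v : List Bool) : List Bool := sub (s01 u) (s01 v) y1

/-- target words of the second kind -/
def T2 (u v : List Bool) : List Bool := sub (s01 u) (s01 v) y2

/-- all the target words -/
def targets : List (List Bool) :=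
  [T1 [false] [true],
   T1 [false] [false, false, true],
   T1 [false, false] [false, false, false, false, true, true],
   T1 [false, false, false] [false, false, false, false, false, false, true, true, true],
   T1 [false] [true, true],
   T2 [false] [true],
   T2 [false, false] [true, true],
   T2 [false, false, false] [true, true, true],
   T2 [false, true] [false, false, true]]

theorem trace_s01 {A B : M2} (hA : A.det = 1) (hB : B.det = 1) (u : List Bool) :
    (pr A B (s01 u)).trace
      = (st (A * B).trace (A * B).trace (A * B * (B * A)).trace u).1 * 2
      + (st (A * B).trace (A * B).trace (A * B * (B * A)).trace u).2.1 * (A * B).trace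
      + (st (A * B).trace (A * B).trace (A * B * (B * A)).trace u).2.2.1 * (A * B).trace
      + (st (A * B).trace (A * B).trace (A * B * (B * A)).trace u).2.2.2
        * (A * B * (B * A)).trace := by
  have e1 : pr A B [false, true] = A * B := by simp [pr]
  have e2 : pr A B [true, false] = B * A := by simp [pr]
  have h1 : (A * B).det = 1 := by rw [det_mul, hA, hB, one_mul]
  have h2 : (B * A).det = 1 := by rw [det_mul, hA, hB, one_mul]
  have := trace_pr h1 h2 u
  rw [Matrix.trace_mul_comm B A] at this
  rw [s01, pr_sub, e1, e2]
  exact this

theorem nondeg {A B : M2} (hA : A.det = 1) (hB : B.det = 1) (hw : (A * B).trace ≠ 0)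
    (hD : (A * B * (B * A) - B * A * (A * B)).det ≠ 0) (hEx : ∀ y ∈ targets, Ex A B y) :
    False := by
  have h1 : (A * B).det = 1 := by rw [det_mul, hA, hB, one_mul]
  have h2 : (B * A).det = 1 := by rw [det_mul, hA, hB, one_mul]
  have htr : (B * A).trace = (A * B).trace := Matrix.trace_mul_comm B A
  have hdet := det_comm_eq h1 h2 htr
  have T := trace_s01 hA hB
  have a1 := no1 hA hB (p := s01 [false]) (q := s01 [true])
    (hEx (T1 [false] [true]) (by simp [targets])) (by decide) (by decide) (by decide)
  have a2 := no1 hA hB (p := s01 [false]) (q := s01 [false, false, true])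
    (hEx (T1 [false] [false, false, true]) (by simp [targets])) (by decide) (by decide) (by decide)
  have a3 := no1 hA hB (p := s01 [false, false])
    (q := s01 [false, false, false, false, true, true])
    (hEx (T1 [false, false] [false, false, false, false, true, true]) (by simp [targets]))
    (by decide) (by decide) (by decide)
  have a4 := no1 hA hB (p := s01 [false, false, false])
    (q := s01 [false, false, false, false, false, false, true, true, true])
    (hEx (T1 [false, false, false] [false, false, false, false, false, false, true, true, true])
      (by simp [targets])) (by decide) (by decide) (by decide)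
  have a5 := no1 hA hB (p := s01 [false]) (q := s01 [true, true])
    (hEx (T1 [false] [true, true]) (by simp [targets])) (by decide) (by decide) (by decide)
  have b1 := no2 hA hB (p := s01 [false]) (q := s01 [true])
    (hEx (T2 [false] [true]) (by simp [targets])) (by decide) (by decide) (by decide) (by decide)
  have b2 := no2 hA hB (p := s01 [false, false]) (q := s01 [true, true])
    (hEx (T2 [false, false] [true, true]) (by simp [targets]))
    (by decide) (by decide) (by decide) (by decide)
  have b3 := no2 hA hB (p := s01 [false, false, false]) (q := s01 [true, true, true])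
    (hEx (T2 [false, false, false] [true, true, true]) (by simp [targets]))
    (by decide) (by decide) (by decide) (by decide)
  have b4 := no2 hA hB (p := s01 [false, true]) (q := s01 [false, false, true])
    (hEx (T2 [false, true] [false, false, true]) (by simp [targets]))
    (by decide) (by decide) (by decide) (by decide)
  rw [s01_append, T, T, T] at a1 a2 a3 a4 a5 b1 b2 b3 b4
  simp only [List.cons_append, List.nil_append, st] at a1 a2 a3 a4 a5 b1 b2 b3 b4
  have hneg : (A * B).trace ^ 2 < 4 → (A * B * (B * A) - B * A * (A * B)).det ≤ 0 :=
    det_comm_nonpos h1
  rw [hdet] at hD hneg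
  generalize (A * B * (B * A)).trace = e at *
  generalize (A * B).trace = w at *
  refine cover (w := w) (e := e) hw (fun h => by have := hneg h; linarith)
    (fun h => hD (by rw [h, neg_zero])) ?_ ?_ ?_ ?_ ?_ ?_ ?_ ?_ ?_
  · convert a1 using 2 <;> ring
  · convert a2 using 2 <;> ring
  · convert a3 using 2 <;> ring
  · convert a4 using 2 <;> ring
  · convert a5 using 2 <;> ring
  · convert b1 using 2 <;> ring
  · convert b2 using 2 <;> ring
  · convert b3 using 2 <;> ring
  · convert b4 using 2 <;> ring

end Pool.Agent.Q314.GA
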