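import Pool.Agent.Q314.GA.Final

/-!
# The word: no pair of real two by two matrices exposes it
-/

namespace Pool.Agent.Q314.GA

open Matrix Filter Topology

/-- the word of length 252 -/
def bad : List Bool :=
  [false, false, true, false, false] ++ ([true, true, false, true, true] ++ targets.flatten)

theorem ex_targets {A B : M2} (h : Ex A B bad) : ∀ y ∈ targets, Ex A B y := by
  intro y hy
  obtain ⟨s, t, hst⟩ := List.append_of_mem hy
  have e : bad = ([false, false, true, false, false] ++ ([true, true, false, true, true]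
      ++ s.flatten)) ++ (y ++ t.flatten) := by
    unfold bad
    rw [hst]
    simp
  rw [e] at h
  exact h.factor

theorem ex_c0 {A B : M2} (h : Ex A B bad) : Ex A B [false, false, true, false, false] := by
  have e : bad = [] ++ ([false, false, true, false, false] ++ ([true, true, false, true, true]
      ++ targets.flatten)) := rfl
  rw [e] at h
  exact h.factor

theorem ex_c1 {A B : M2} (h : Ex A B bad) : Ex A B [true, true, false, true, true] := by
  have e : bad = [false, false, true, false, false] ++ ([true, true, false, true, true]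
      ++ targets.flatten) := rfl
  rw [e] at h
  exact h.factor

theorem det_not_neg0 {A B : M2} (h : Ex A B bad) : ¬ A.det < 0 := by
  intro hA
  obtain ⟨r, c, h⟩ := ex_c0 h
  have h1 := h [false, false, false, false, true] (by decide) (by decide)
  have h2 := h [true, false, false, false, false] (by decide) (by decide)
  have h3 := h [false, false, false, true, false] (by decide) (by decide)
  have h4 := h [false, true, false, false, false] (by decide) (by decide)
  simp only [pr, Bool.false_eq_true, if_false, if_true, mul_one] at h1 h2 h3 h4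
  exact cert0 hA r c h1 h2 h3 h4

theorem det_not_neg1 {A B : M2} (h : Ex A B bad) : ¬ B.det < 0 := by
  intro hA
  obtain ⟨r, c, h⟩ := ex_c1 h
  have h1 := h [true, true, true, true, false] (by decide) (by decide)
  have h2 := h [false, true, true, true, true] (by decide) (by decide)
  have h3 := h [true, true, true, false, true] (by decide) (by decide)
  have h4 := h [true, false, true, true, true] (by decide) (by decide)
  simp only [pr, Bool.false_eq_true, if_false, if_true, mul_one] at h1 h2 h3 h4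
  exact cert0 hA r c h1 h2 h3 h4

/-- the nondegenerate case -/
theorem not_ex {A B : M2} (hA : A.det ≠ 0) (hB : B.det ≠ 0) (hw : (A * B).trace ≠ 0)
    (hD : (A * B * (B * A) - B * A * (A * B)).det ≠ 0) : ¬ Ex A B bad := by
  intro h
  have hA0 : 0 < A.det := lt_of_le_of_ne (not_lt.1 (det_not_neg0 h)) (Ne.symm hA)
  have hB0 : 0 < B.det := lt_of_le_of_ne (not_lt.1 (det_not_neg1 h)) (Ne.symm hB)
  have hsA : 0 < √A.det := Real.sqrt_pos.2 hA0
  have hsB : 0 < √B.det := Real.sqrt_pos.2 hB0
  obtain ⟨s, hs⟩ : ∃ s, s = (√A.det)⁻¹ := ⟨_, rfl⟩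
  obtain ⟨t, ht⟩ : ∃ t, t = (√B.det)⁻¹ := ⟨_, rfl⟩
  have hs0 : s ≠ 0 := by rw [hs]; positivity
  have ht0 : t ≠ 0 := by rw [ht]; positivity
  have dA : (s • A).det = 1 := by
    rw [det_smul, Fintype.card_fin, hs, inv_pow, Real.sq_sqrt hA0.le]
    exact inv_mul_cancel₀ hA
  have dB : (t • B).det = 1 := by
    rw [det_smul, Fintype.card_fin, ht, inv_pow, Real.sq_sqrt hB0.le]
    exact inv_mul_cancel₀ hB
  refine nondeg dA dB ?_ ?_ (fun y hy => (ex_targets h y hy).smul hs0 ht0)
  · have : (s • A) * (t • B) = (s * t) • (A * B) := by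
      rw [smul_mul_smul_comm]
    rw [this, trace_smul, smul_eq_mul]
    exact mul_ne_zero (mul_ne_zero hs0 ht0) hw
  · have : (s • A) * (t • B) * ((t • B) * (s • A)) - (t • B) * (s • A) * ((s • A) * (t • B))
        = (s * t * (t * s)) • (A * B * (B * A) - B * A * (A * B)) := by
      simp only [smul_mul_smul_comm, smul_sub]
      congr 2
      ring
    rw [this, det_smul]
    exact mul_ne_zero (pow_ne_zero _ (mul_ne_zero (mul_ne_zero hs0 ht0) (mul_ne_zero ht0 hs0))) hD

/-! ### perturbation -/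

/-- strict exposure among all the words of the same length -/
def Strict (A B : M2) (r c : Fin 2 → ℝ) (y : List Bool) : Prop :=
  ∀ z : List Bool, z.length = y.length → z ≠ y → F r c (pr A B z) < F r c (pr A B y)

theorem Strict.ex {A B : M2} {r c : Fin 2 → ℝ} {y : List Bool} (h : Strict A B r c y) :
    Ex A B y := ⟨r, c, fun z hz hne => h z hz.length_eq hne⟩

theorem continuous_pr {A B : ℝ → M2} (hA : Continuous A) (hB : Continuous B) (z : List Bool) :
    Continuous (fun t => pr (A t) (B t) z) := by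
  induction z with
  | nil => exact continuous_const
  | cons b z ih =>
    cases b
    · exact hA.matrix_mul ih
    · exact hB.matrix_mul ih

theorem continuous_F {r c : Fin 2 → ℝ} {X : ℝ → M2} (hX : Continuous X) :
    Continuous (fun t => F r c (X t)) := by
  unfold F
  fun_prop

theorem eventually_strict {A B : ℝ → M2} (hA : Continuous A) (hB : Continuous B)
    {r c : Fin 2 → ℝ} {y : List Bool} (h : Strict (A 0) (B 0) r c y) :
    ∀ᶠ t in 𝓝 (0 : ℝ), Strict (A t) (B t) r c y := by
  have hfin : {z : List Bool | z.length = y.length ∧ z ≠ y}.Finite :=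
    (List.finite_length_eq Bool y.length).subset (fun z hz => hz.1)
  have : ∀ᶠ t in 𝓝 (0 : ℝ), ∀ z ∈ {z : List Bool | z.length = y.length ∧ z ≠ y},
      F r c (pr (A t) (B t) z) < F r c (pr (A t) (B t) y) := by
    rw [Filter.eventually_all_finite hfin]
    intro z hz
    exact (continuous_F (continuous_pr hA hB z)).continuousAt.eventually_lt
      (continuous_F (continuous_pr hA hB y)).continuousAt (h z hz.1 hz.2)
  filter_upwards [this] with t ht z h1 h2
  exact ht z ⟨h1, h2⟩

/-- functions given by a polynomial -/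
def IsPoly (f : ℝ → ℝ) : Prop := ∃ Q : Polynomial ℝ, ∀ t, Q.eval t = f t

theorem IsPoly.add {f g : ℝ → ℝ} (hf : IsPoly f) (hg : IsPoly g) :
    IsPoly (fun t => f t + g t) := by
  obtain ⟨P, hP⟩ := hf
  obtain ⟨Q, hQ⟩ := hg
  exact ⟨P + Q, fun t => by simp [hP, hQ]⟩

theorem IsPoly.sub {f g : ℝ → ℝ} (hf : IsPoly f) (hg : IsPoly g) :
    IsPoly (fun t => f t - g t) := by
  obtain ⟨P, hP⟩ := hf
  obtain ⟨Q, hQ⟩ := hg
  exact ⟨P - Q, fun t => by simp [hP, hQ]⟩

theorem IsPoly.mul {f g : ℝ → ℝ} (hf : IsPoly f) (hg : IsPoly g) :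
    IsPoly (fun t => f t * g t) := by
  obtain ⟨P, hP⟩ := hf
  obtain ⟨Q, hQ⟩ := hg
  exact ⟨P * Q, fun t => by simp [hP, hQ]⟩

theorem IsPoly.const (a : ℝ) : IsPoly (fun _ => a) := ⟨Polynomial.C a, fun t => by simp⟩

theorem IsPoly.id : IsPoly (fun t => t) := ⟨Polynomial.X, fun t => by simp⟩

/-- matrices with polynomial entries -/
def MPoly (X : ℝ → M2) : Prop := ∀ i j, IsPoly (fun t => X t i j)

theorem MPoly.mul {X Y : ℝ → M2} (hX : MPoly X) (hY : MPoly Y) : MPoly (fun t => X t * Y t) := by
  intro i j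
  simp only [Matrix.mul_apply, Fin.sum_univ_two]
  exact ((hX _ _).mul (hY _ _)).add ((hX _ _).mul (hY _ _))

theorem MPoly.sub {X Y : ℝ → M2} (hX : MPoly X) (hY : MPoly Y) : MPoly (fun t => X t - Y t) := by
  intro i j
  simp only [Matrix.sub_apply]
  exact (hX _ _).sub (hY _ _)

theorem MPoly.det {X : ℝ → M2} (hX : MPoly X) : IsPoly (fun t => (X t).det) := by
  simp only [det_fin_two]
  exact ((hX _ _).mul (hX _ _)).sub ((hX _ _).mul (hX _ _))

theorem MPoly.trace {X : ℝ → M2} (hX : MPoly X) : IsPoly (fun t => (X t).trace) := by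
  simp only [trace_fin_two]
  exact (hX _ _).add (hX _ _)

theorem MPoly.line (A A' : M2) : MPoly (fun t => A + t • (A' - A)) := by
  intro i j
  simp only [Matrix.add_apply, Matrix.smul_apply, smul_eq_mul]
  exact (IsPoly.const _).add (IsPoly.id.mul (IsPoly.const _))

theorem eventually_ne {f : ℝ → ℝ} (hf : IsPoly f) {a : ℝ} (ha : f a ≠ 0) :
    ∀ᶠ t in 𝓝[≠] (0 : ℝ), f t ≠ 0 := by
  obtain ⟨Q, hQ⟩ := hf
  have hQ0 : Q ≠ 0 := by
    rintro rfl
    apply ha
    rw [← hQ]
    simp
  have hfin : {t : ℝ | Q.IsRoot t}.Finite := by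
    by_contra hcon
    exact hQ0 (Polynomial.eq_zero_of_infinite_isRoot Q hcon)
  have hfin' : ({t : ℝ | Q.IsRoot t} \ {0}).Finite := hfin.subset Set.sdiff_subset
  have h1 : ({t : ℝ | Q.IsRoot t} \ {0})ᶜ ∈ 𝓝 (0 : ℝ) :=
    hfin'.isClosed.isOpen_compl.mem_nhds (by simp)
  have h2 : ∀ᶠ t in 𝓝[≠] (0 : ℝ), t ∈ ({t : ℝ | Q.IsRoot t} \ {0})ᶜ :=
    mem_nhdsWithin_of_mem_nhds h1
  have h3 : ∀ᶠ t in 𝓝[≠] (0 : ℝ), t ≠ 0 := eventually_mem_nhdsWithin
  filter_upwards [h2, h3] with t ht ht0 hft
  apply ht
  refine ⟨?_, ht0⟩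
  change Q.eval t = 0
  rw [hQ]
  exact hft

/-- **the key result** -/
theorem not_strict (A B : M2) (r c : Fin 2 → ℝ) : ¬ Strict A B r c bad := by
  intro h
  set A' : M2 := !![1, 1; 0, 1] with hA'
  set B' : M2 := !![1, 0; 1, 1] with hB'
  have hcA : Continuous (fun t : ℝ => A + t • (A' - A)) := by fun_prop
  have hcB : Continuous (fun t : ℝ => B + t • (B' - B)) := by fun_prop
  have h0 : Strict (A + (0 : ℝ) • (A' - A)) (B + (0 : ℝ) • (B' - B)) r c bad := by
    rw [zero_smul, zero_smul, add_zero, add_zero]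
    exact h
  have hS := eventually_strict (A := fun t : ℝ => A + t • (A' - A))
    (B := fun t : ℝ => B + t • (B' - B)) hcA hcB h0
  have hpA := MPoly.line A A'
  have hpB := MPoly.line B B'
  have e1A : A + (1 : ℝ) • (A' - A) = A' := by rw [one_smul]; abel
  have e1B : B + (1 : ℝ) • (B' - B) = B' := by rw [one_smul]; abel
  have q1 := eventually_ne hpA.det (a := 1) (by
    rw [e1A, hA', det_fin_two]; simp)
  have q2 := eventually_ne hpB.det (a := 1) (by
    rw [e1B, hB', det_fin_two]; simp)
  have q3 := eventually_ne (hpA.mul hpB).trace (a := 1) (by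
    rw [e1A, e1B, hA', hB']; simp [trace_fin_two]; norm_num)
  have q4 := eventually_ne (((hpA.mul hpB).mul (hpB.mul hpA)).sub
    ((hpB.mul hpA).mul (hpA.mul hpB))).det (a := 1) (by
    rw [e1A, e1B, hA', hB']; simp [det_fin_two])
  have hS' : ∀ᶠ t in 𝓝[≠] (0 : ℝ),
      Strict (A + t • (A' - A)) (B + t • (B' - B)) r c bad := hS.filter_mono nhdsWithin_le_nhds
  obtain ⟨t, t1, t2, t3, t4, t5⟩ := (hS'.and (q1.and (q2.and (q3.and q4)))).exists
  exact not_ex t2 t3 t4 t5 t1.ex

end Pool.Agent.Q314.GA
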